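import Pool.Agent.W913.SG.Struct

/-! Symmetric sets of reals of size at most aleph one are in the sigma-algebra generated by the
additive subgroups. -/

namespace Pool.Agent.Results.MP_fbee13_lc.AlephOneSymmetric

open Set Cardinal MeasureTheory
open scoped Ordinal
open Pool.Agent.W913.SG (Full grp)
open Pool.Agent.W913

/-- `Z` belongs to the sigma-algebra on `ℝ` generated by all additive subgroups of `ℝ`. -/
def InGroupAlgebra (Z : Set ℝ) : Prop :=
  MeasurableSet[MeasurableSpace.generateFrom {S : Set ℝ | ∃ G : AddSubgroup ℝ, (G : Set ℝ) = S}] Z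

/-- equality sets of two functions with values in a type of size at most the continuum -/
theorem eq_meas {T T' U : Type} (r : U → ℝ) (hr : Function.Injective r) (f : T → U) (g : T' → U) :
    MeasurableSet[(⊤ : MeasurableSpace T).prod (⊤ : MeasurableSpace T')]
      {p : T × T' | f p.1 = g p.2} := by
  let _ : MeasurableSpace T := ⊤
  let _ : MeasurableSpace T' := ⊤
  have h1 : Measurable (fun p : T × T' => r (f p.1)) :=
    (measurable_from_top (f := fun t => r (f t))).comp measurable_fst
  have h2 : Measurable (fun p : T × T' => r (g p.2)) :=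
    (measurable_from_top (f := fun t => r (g t))).comp measurable_snd
  have h3 := measurableSet_eq_fun h1 h2
  have h4 : {p : T × T' | f p.1 = g p.2} = {p : T × T' | r (f p.1) = r (g p.2)} := by
    ext p
    exact hr.eq_iff.symm
  rw [h4]
  exact h3

/-- every subset of the square of a set of size at most `ℵ₁` is in the rectangle algebra -/
theorem full_of_le {T : Type} (hT : #T ≤ ℵ₁) : Full T := by
  classical
  let Ω : Type := (ω₁ : Ordinal.{0}).ToType
  have hΩ : #Ω = ℵ₁ := by simp [Ω]
  have hf : Nonempty (T ↪ Ω) := by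
    rw [← Cardinal.le_def, hΩ]
    exact hT
  obtain ⟨f⟩ := hf
  refine Full.of_injective ?_ f.injective
  have hr : Nonempty (Ω ↪ ℝ) := by
    rw [← Cardinal.le_def, hΩ, Cardinal.mk_real]
    exact Cardinal.aleph_one_le_continuum
  obtain ⟨r⟩ := hr
  have hcount : ∀ α : Ω, (Iic α).Countable := by
    intro α
    have h1 : (Iio α).Countable := by
      rw [← Cardinal.le_aleph0_iff_set_countable]
      have h2 : #(Iio α) < ℵ₁ := by
        have := mk_Iio_lt α (by simp [Ω])
        rwa [hΩ] at this
      exact Order.lt_succ_iff.mp (by rwa [← Cardinal.succ_aleph0] at h2)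
    have h2 : Iic α = Iio α ∪ {α} := by
      ext x
      simp [le_iff_lt_or_eq]
    rw [h2]
    exact h1.union (countable_singleton α)
  have henum : ∀ α : Ω, ∃ e : ℕ → Ω, Iic α = range e := fun α =>
    (hcount α).exists_eq_range ⟨α, self_mem_Iic⟩
  choose e he using henum
  intro E
  have hE : E = (⋃ n, ({p : Ω × Ω | e p.1 n = p.2} ∩ {p | (p.1, e p.1 n) ∈ E})) ∪
      (⋃ n, ({p : Ω × Ω | p.1 = e p.2 n} ∩ {p | (e p.2 n, p.2) ∈ E})) := by
    ext ⟨x, y⟩
    constructor
    · intro h
      rcases le_total y x with hxy | hxy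
      · left
        have : y ∈ range (e x) := by rw [← he]; exact hxy
        obtain ⟨n, hn⟩ := this
        rw [mem_iUnion]
        exact ⟨n, hn, by show (x, e x n) ∈ E; rw [hn]; exact h⟩
      · right
        have : x ∈ range (e y) := by rw [← he]; exact hxy
        obtain ⟨n, hn⟩ := this
        rw [mem_iUnion]
        exact ⟨n, hn.symm, by show (e y n, y) ∈ E; rw [hn]; exact h⟩
    · rintro (h | h)
      · rw [mem_iUnion] at h
        obtain ⟨n, h1, h2⟩ := h
        have h1' : e x n = y := h1
        have h2' : (x, e x n) ∈ E := h2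
        rwa [h1'] at h2'
      · rw [mem_iUnion] at h
        obtain ⟨n, h1, h2⟩ := h
        have h1' : x = e y n := h1
        have h2' : (e y n, y) ∈ E := h2
        rwa [← h1'] at h2'
  rw [hE]
  let _ : MeasurableSpace Ω := ⊤
  refine MeasurableSet.union (MeasurableSet.iUnion fun n => ?_) (MeasurableSet.iUnion fun n => ?_)
  · refine MeasurableSet.inter (eq_meas r r.injective (fun x => e x n) (fun y => y)) ?_
    have ht : MeasurableSet {x : Ω | (x, e x n) ∈ E} := trivial
    exact measurable_fst ht
  · refine MeasurableSet.inter (eq_meas r r.injective (fun x => x) (fun y => e y n)) ?_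
    have ht : MeasurableSet {y : Ω | (e y n, y) ∈ E} := trivial
    exact measurable_snd ht

/-- a Hamel basis -/
theorem exists_basis : ∃ (ι : Type) (_ : Module.Basis ι ℚ ℝ), #ι = 𝔠 := by
  refine ⟨_, Module.Basis.ofVectorSpace ℚ ℝ, ?_⟩
  rw [(Module.Basis.ofVectorSpace ℚ ℝ).mk_eq_rank'', Real.rank_rat_real]

theorem small_sym {Z : Set ℝ} (hZ : ∀ z ∈ Z, -z ∈ Z) (hcard : #Z ≤ ℵ₁) : InGroupAlgebra Z := by
  classical
  obtain ⟨ι, b, hι⟩ := exists_basis
  have hinf : Infinite ι := by
    rw [Cardinal.infinite_iff, hι]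
    exact Cardinal.aleph0_le_continuum
  have hj : Nonempty (ι ↪ ℝ) := by
    rw [← Cardinal.le_def, hι, Cardinal.mk_real]
  obtain ⟨j⟩ := hj
  let e : ℕ ↪ ι := Infinite.natEmbedding ι
  let S : Set ι := (⋃ z : Z, ((b.repr z.1).support : Set ι)) ∪ range e
  have hSinf : Infinite S := by
    have : (range e).Infinite := infinite_range_of_injective e.injective
    exact (this.mono subset_union_right).to_subtype
  have h0 : (ℵ₀ : Cardinal.{0}) ≤ ℵ₁ := Cardinal.aleph0_lt_aleph_one.le
  have hScard : #S ≤ ℵ₁ := by
    refine (Cardinal.mk_union_le _ _).trans (Cardinal.add_le_of_le h0 ?_ ?_)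
    · refine (Cardinal.mk_iUnion_le_sum_mk).trans ?_
      refine (Cardinal.sum_le_mk_mul_iSup _).trans ?_
      refine Cardinal.mul_le_of_le h0 hcard ?_
      apply ciSup_le'
      intro z
      exact ((Cardinal.le_aleph0_iff_set_countable.mpr
        (Finset.countable_toSet _)).trans h0)
    · exact (Cardinal.le_aleph0_iff_set_countable.mpr (countable_range e)).trans h0
  refine SG.sym_meas b j j.injective S (full_of_le hScard) hZ ?_
  intro z hz h hh
  by_contra hne
  apply hh
  left
  rw [mem_iUnion]
  exact ⟨⟨z, hz⟩, Finsupp.mem_support_iff.mpr hne⟩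

/-- Every symmetric set of reals of cardinality at most `ℵ₁` is in the sigma-algebra generated by
the additive subgroups of `ℝ`. -/
theorem result (Z : Set ℝ) (hZ : ∀ z ∈ Z, -z ∈ Z) (hc : #Z ≤ ℵ₁) : InGroupAlgebra Z :=
  small_sym hZ hc

end Pool.Agent.Results.MP_fbee13_lc.AlephOneSymmetric
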